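import Pool.Agent.H98.Code.Defs

set_option autoImplicit false

/-!
Rooted sides of the words of a code (MP_a46c6f_co, note 7214): the interface.
-/

namespace Pool.Agent.H23.Q

open Pool.Agent.H98.Code

/-- rooted sides: `S u Y` says that `Y` is the set of own vertices of the side of the word `u` which
avoids the root `e` -/
structure RS {X : Type} (B : Submodule (ZMod 2) (X → K)) (e : X)
    (S : (X → K) → Finset X → Prop) : Prop where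
  mem : ∀ u Y, S u Y → u ∈ B ∧ ZFree u ∧ u e = 0 ∧ e ∉ Y ∧ ∀ v ∈ Y, u v = 0
  ex : ∀ u, u ∈ B → ZFree u → u e = 0 → u ≠ 0 →
    (∀ k ∈ B, (∀ v, k v = 0 ∨ k v = u v) → k = 0 ∨ k = u) → (∀ g, ¬ Splits B u g) → ∃ Y, S u Y
  wc : ∀ u, S u ∅ → u ≠ 0 → ∃ g, Splits B u g
  part : ∀ u Y, S u Y → ∀ k ∈ B, (∀ v, u v ≠ 0 → k v = 0 ∨ k v = u v) →
    ∃ k' ∈ B, k' e = 0 ∧ (∀ v ∈ Y, k' v = k v) ∧ (∀ v, u v = 0 → v ∉ Y → k' v = 0) ∧
      (∀ v, u v ≠ 0 → k' v = 0 ∨ k' v = u v) ∧ (ZFree k' → ∃ Y' ⊆ Y, S k' Y') ∧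
      (ZFree (k' + u) → ∃ Y' ⊆ Y, S (k' + u) Y')

end Pool.Agent.H23.Q
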