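import Pool.Agent.H23.Q.Defs
import Pool.Agent.H98.TR.InvM

set_option autoImplicit false

/-!
Rooted sides (MP_a46c6f_co, note 7214): the kernel at the full word is zero; the matrix.
-/

namespace Pool.Agent.H23.Q

open Finset Pool.Agent.H98.Code Pool.Agent.H17.TR Pool.Agent.H98.TR

theorem l_zero : ∀ o : K, kf 0 o = 0 := by decide
theorem l_self : ∀ o : K, kf o o = 0 := by decide
theorem l_add : ∀ a b o : K, kf (a + b) o = kf a o + kf b o := by decide
theorem l_smul : ∀ (c : ZMod 2) (a o : K), kf (c • a) o = c * kf a o := by decide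
theorem l_z : ∀ o : K, o.1 = 1 → kf z o = 1 := by decide
theorem l_eq_zero : ∀ a o : K, o.1 = 1 → a.1 = 0 → kf a o = 0 → a = 0 := by decide
theorem l_le : ∀ a o : K, o.1 = 1 → kf a o = 0 → a = 0 ∨ a = o := by decide
theorem l_third : ∀ a o : K, o.1 = 1 → a ≠ z → kf a o = 1 → a.1 = 1 := by decide
theorem l_ext : ∀ a b o : K, o.1 = 1 → a.1 = b.1 → kf a o = kf b o → a = b := by decide

variable {X : Type} [Fintype X] [DecidableEq X] {B : Submodule (ZMod 2) (X → K)} {e : X}
  {om : X → K} {S : (X → K) → Finset X → Prop}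

theorem zfree_of_le (om1 : ∀ v, (om v).1 = 1) {c : X → K} (hc : ∀ v, kf (c v) (om v) = 0) :
    ZFree c := by
  intro v hv
  have := hc v
  rw [hv, l_z _ (om1 v)] at this
  exact absurd this (by decide)

theorem om_ne (om1 : ∀ v, (om v).1 = 1) (v : X) : om v ≠ 0 := by
  intro h
  have := om1 v
  rw [h] at this
  exact absurd this (by decide)

theorem nosplit (iso : ∀ u ∈ B, ∀ v ∈ B, form u v = 0) (omB : om ∈ B) (om1 : ∀ v, (om v).1 = 1)
    {c : X → K} (hc : ∀ v, kf (c v) (om v) = 0) {g : X} : ¬ Splits B c g := by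
  rintro ⟨c₁, h1, c₂, h2, hs, hg1, hg2, hd⟩
  have h := iso c₁ h1 om omB
  unfold form at h
  rw [Finset.sum_eq_single g] at h
  · rw [hg1, l_z _ (om1 g)] at h
    exact absurd h (by decide)
  · intro v _ hv
    rcases hd v hv with h3 | h3
    · rw [h3]; exact l_zero _
    · have : c₁ v = c v := by rw [← hs, Pi.add_apply, h3, add_zero]
      rw [this]; exact hc v
  · intro h3
    exact absurd (Finset.mem_univ g) h3

theorem kernel0 (hS : RS B e S) (iso : ∀ u ∈ B, ∀ v ∈ B, form u v = 0) (omB : om ∈ B)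
    (om1 : ∀ v, (om v).1 = 1) : ∀ (n : ℕ) (c : X → K), (univ.filter fun v => c v ≠ 0).card ≤ n →
    c ∈ B → c e = 0 → (∀ v, kf (c v) (om v) = 0) → c = 0 := by
  intro n
  induction n with
  | zero =>
    intro c hn _ _ _
    have h0 := Finset.card_eq_zero.1 (Nat.le_zero.1 hn)
    funext v
    by_contra hv
    have h1 : v ∈ (univ.filter fun v => c v ≠ 0) := Finset.mem_filter.2 ⟨mem_univ _, hv⟩
    rw [h0] at h1
    exact absurd h1 (Finset.notMem_empty v)
  | succ n ih =>
    intro c hn hc hce hk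
    by_contra hne
    have hle : ∀ v, c v = 0 ∨ c v = om v := fun v => l_le _ _ (om1 v) (hk v)
    have hzf : ZFree c := zfree_of_le om1 hk
    obtain ⟨Y, hY⟩ := hS.ex c hc hzf hce hne (by
      intro k hkB hkle
      by_cases h0 : k = 0
      · exact Or.inl h0
      right
      by_contra hcon
      apply h0
      refine ih k ?_ hkB ?_ ?_
      · obtain ⟨v, hv⟩ : ∃ v, k v ≠ c v := by
          by_contra hh
          push Not at hh
          exact hcon (funext hh)
        have h1 : k v = 0 := (hkle v).resolve_right hv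
        have h2 : (univ.filter fun v => k v ≠ 0) ⊂ (univ.filter fun v => c v ≠ 0) := by
          rw [Finset.ssubset_iff_of_subset]
          · refine ⟨v, Finset.mem_filter.2 ⟨mem_univ _, fun h => hv (h1.trans h.symm)⟩, ?_⟩
            intro h
            exact (Finset.mem_filter.1 h).2 h1
          · intro w hw
            have hw' := (Finset.mem_filter.1 hw).2
            refine Finset.mem_filter.2 ⟨mem_univ _, ?_⟩
            rcases hkle w with h | h
            · exact absurd h hw'
            · rw [← h]; exact hw'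
        have := Finset.card_lt_card h2
        omega
      · rcases hkle e with h | h
        · exact h
        · rw [h, hce]
      · intro v
        rcases hkle v with h | h
        · rw [h]; exact l_zero _
        · rw [h]; exact hk v) (fun g => nosplit iso omB om1 hk)
    have hY0 : Y.Nonempty := by
      rw [Finset.nonempty_iff_ne_empty]
      rintro rfl
      obtain ⟨g, hg⟩ := hS.wc c hY hne
      exact nosplit iso omB om1 hk hg
    obtain ⟨y, hy⟩ := hY0
    obtain ⟨k', hk', hke, hkY, hk0, hks, hkS, -⟩ := hS.part c Y hY om omB (by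
      intro v hv
      rcases hle v with h | h
      · exact absurd h hv
      · exact Or.inr h.symm)
    have hk'om : ∀ v, kf (k' v) (om v) = 0 := by
      intro v
      by_cases hcv : c v = 0
      · by_cases hvY : v ∈ Y
        · rw [hkY v hvY]; exact l_self _
        · rw [hk0 v hcv hvY]; exact l_zero _
      · rcases hks v hcv with h | h
        · rw [h]; exact l_zero _
        · rw [h]; exact hk v
    obtain ⟨Y', hY', hSY'⟩ := hkS (zfree_of_le om1 hk'om)
    have hY'0 : Y' = ∅ := by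
      rw [Finset.eq_empty_iff_forall_notMem]
      intro v hv
      have h1 := (hS.mem k' Y' hSY').2.2.2.2 v hv
      rw [hkY v (hY' hv)] at h1
      exact om_ne om1 v h1
    subst hY'0
    obtain ⟨g, hg⟩ := hS.wc k' hSY' (by
      intro h
      have h1 := congrFun h y
      rw [hkY y hy] at h1
      exact om_ne om1 y h1)
    exact nosplit iso omB om1 hk'om hg

theorem kernel (hS : RS B e S) (iso : ∀ u ∈ B, ∀ v ∈ B, form u v = 0) (omB : om ∈ B)
    (om1 : ∀ v, (om v).1 = 1) (c : X → K) (hc : c ∈ B) (hce : c e = 0)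
    (hk : ∀ v, kf (c v) (om v) = 0) : c = 0 :=
  kernel0 hS iso omB om1 _ c le_rfl hc hce hk

/-- the matrix data -/
structure St (B : Submodule (ZMod 2) (X → K)) (e : X) (om : X → K) (M : X → X → ZMod 2) :
    Prop where
  iso : ∀ u ∈ B, ∀ v ∈ B, form u v = 0
  omB : om ∈ B
  om1 : ∀ v, (om v).1 = 1
  sym : ∀ x y, M x y = M y x
  me : ∀ x, M e x = 0
  row : ∀ y, y ≠ e → ∃ r ∈ B, (∀ v, (r v).1 = M y v) ∧
    ∀ v, kf (r v) (om v) = if v = y ∨ v = e then 1 else 0
  val : ∀ c ∈ B, (c e).1 = 0 → ∀ v, (c v).1 = ∑ w, M v w * kf (c w) (om w)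

/-- the full word -/
def omH (H : X → X → ZMod 2) : X → K := fun v => (1, ∑ w, H v w)

theorem omH_mem {H : X → X → ZMod 2} (hH : IsMat B H) : omH H ∈ B := by
  rw [hH.mem]
  intro v
  simp [omH]

theorem kf_omH (H : X → X → ZMod 2) (a : K) (v : X) :
    kf a (omH H v) = a.1 * (∑ w, H v w) + a.2 := by
  simp [kf, omH]

theorem kf_W (H : X → X → ZMod 2) (f : {v // v ≠ e} → ZMod 2) (x : {v // v ≠ e}) :
    kf (W H e f x.1) (omH H x.1) = (Lam H e).mulVec f x := by
  rw [kf_omH, W_val]
  simp only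
  generalize (Lam H e).mulVec f x = a
  generalize (∑ w, H x.1 w) = b
  generalize f x = c
  revert a b c
  decide

theorem exists_St (hS : RS B e S) (iso : ∀ u ∈ B, ∀ v ∈ B, form u v = 0)
    {H : X → X → ZMod 2} (hH : IsMat B H) :
    ∃ M : X → X → ZMod 2, St B e (omH H) M ∧
      (∀ u, u ≠ e → ∀ v, ∑ w, H u w * (M u v + M w v) = if u = v then 1 else 0) := by
  have om1 : ∀ v, (omH H v).1 = 1 := fun v => rfl
  have omB := omH_mem hH
  have hsumW : ∀ f : {v // v ≠ e} → ZMod 2, (W H e f e) = (0, ∑ x, (Lam H e).mulVec f x) :=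
    fun f => W_e hH.sym e f
  have hinj : Function.Injective (Lam H e).mulVec := by
    intro f f' hff
    have h1 : (Lam H e).mulVec (f - f') = 0 := by
      rw [Matrix.mulVec_sub, hff, sub_self]
    have h2 : W H e (f - f') = 0 := by
      refine kernel hS iso omB om1 _ (W_mem hH e _) ?_ ?_
      · rw [hsumW, h1]
        simp
      · intro v
        by_cases hv : v = e
        · rw [hv, hsumW, h1, kf_omH]
          simp
        · rw [kf_W H (f - f') ⟨v, hv⟩, h1]
          rfl
    apply sub_eq_zero.1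
    funext x
    have h3 := congrFun h2 x.1
    rw [W_val] at h3
    exact congrArg Prod.fst h3
  have hu : IsUnit (Lam H e) := Matrix.mulVec_injective_iff_isUnit.1 hinj
  have hdet : IsUnit (Lam H e).det := (Matrix.isUnit_iff_isUnit_det _).1 hu
  have hN : Lam H e * (Lam H e)⁻¹ = 1 := Matrix.mul_nonsing_inv _ hdet
  have hN' : (Lam H e)⁻¹ * Lam H e = 1 := mul_eq_one_comm.1 hN
  have hT : (Lam H e).transpose = Lam H e := by
    ext x y
    unfold Lam
    rw [Matrix.transpose_apply, hH.sym]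
    by_cases hxy : x = y
    · rw [hxy]
    · rw [if_neg hxy, if_neg (Ne.symm hxy)]
  have hNs : ∀ x y, (Lam H e)⁻¹ x y = (Lam H e)⁻¹ y x := by
    intro x y
    have h1 := Matrix.transpose_nonsing_inv (Lam H e)
    rw [hT] at h1
    have h2 : (Lam H e)⁻¹.transpose y x = (Lam H e)⁻¹ y x := by rw [h1]
    exact h2
  refine ⟨MM (Lam H e)⁻¹, ⟨iso, omB, om1, ?_, MM_left _, ?_, ?_⟩, ?_⟩
  · intro x y
    by_cases hx : x = e
    · rw [hx, MM_left, MM_right]
    · by_cases hy : y = e
      · rw [hy, MM_left, MM_right]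
      · rw [MM_val _ ⟨x, hx⟩ ⟨y, hy⟩, MM_val _ ⟨y, hy⟩ ⟨x, hx⟩, hNs]
  · intro y hy
    have h1 : (Lam H e).mulVec ((Lam H e)⁻¹.mulVec (Pi.single ⟨y, hy⟩ 1)) =
        Pi.single ⟨y, hy⟩ 1 := by
      rw [Matrix.mulVec_mulVec, hN, Matrix.one_mulVec]
    refine ⟨W H e ((Lam H e)⁻¹.mulVec (Pi.single ⟨y, hy⟩ 1)), W_mem hH e _, ?_, ?_⟩
    · intro v
      by_cases hv : v = e
      · rw [hv, hsumW, MM_right]
      · rw [W_val H e _ ⟨v, hv⟩, MM_val _ ⟨y, hy⟩ ⟨v, hv⟩, Matrix.mulVec_single_one,
          Matrix.col_apply, hNs]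
    · intro v
      by_cases hv : v = e
      · rw [hv, hsumW, h1, kf_omH, if_pos (Or.inr rfl)]
        simp
      · rw [kf_W H _ ⟨v, hv⟩, h1]
        by_cases hvy : v = y
        · subst hvy
          rw [if_pos (Or.inl rfl), Pi.single_eq_same]
        · rw [if_neg (by tauto), Pi.single_eq_of_ne (fun h => hvy (congrArg Subtype.val h))]
  · intro c hc hce v
    have h1 := eq_W hH hc hce
    generalize (fun x : {v // v ≠ e} => (c x.1).1) = f at h1
    subst h1
    by_cases hv : v = e
    · rw [hv, hce]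
      symm
      apply Finset.sum_eq_zero
      intro w _
      rw [MM_left, zero_mul]
    · rw [W_val H e _ ⟨v, hv⟩]
      rw [Fintype.sum_eq_add_sum_subtype_ne
        (fun w => MM (Lam H e)⁻¹ v w * kf (W H e f w) (omH H w)) e, MM_right, zero_mul, zero_add]
      have h2 : ∀ x : {v // v ≠ e}, MM (Lam H e)⁻¹ v x.1 * kf (W H e f x.1) (omH H x.1) =
          (Lam H e)⁻¹ ⟨v, hv⟩ x * (Lam H e).mulVec f x := by
        intro x
        rw [kf_W, MM_val _ ⟨v, hv⟩ x]
      rw [Finset.sum_congr rfl fun x _ => h2 x]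
      have h3 : ∑ x, (Lam H e)⁻¹ ⟨v, hv⟩ x * (Lam H e).mulVec f x =
          (Lam H e)⁻¹.mulVec ((Lam H e).mulVec f) ⟨v, hv⟩ := rfl
      rw [h3, Matrix.mulVec_mulVec, hN', Matrix.one_mulVec]
  · intro u hu v
    by_cases hv : v = e
    · rw [hv, if_neg hu]
      apply Finset.sum_eq_zero
      intro w _
      rw [MM_right, MM_right, add_zero, mul_zero]
    · have h1 : ∑ w, H u w * (MM (Lam H e)⁻¹ u v + MM (Lam H e)⁻¹ w v) =
          (Lam H e).mulVec (fun x => (Lam H e)⁻¹ x ⟨v, hv⟩) ⟨u, hu⟩ := by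
        rw [act_eq]
        have h2 : ∀ w, MM (Lam H e)⁻¹ w v =
            ext0 e (fun x => (Lam H e)⁻¹ x ⟨v, hv⟩) w := by
          intro w
          by_cases hw : w = e
          · rw [hw, ext0_e, MM_left]
          · rw [ext0_val e _ ⟨w, hw⟩, MM_val _ ⟨w, hw⟩ ⟨v, hv⟩]
        simp only [mul_add, Finset.sum_add_distrib, h2]
        rw [ext0_val e _ ⟨u, hu⟩, Finset.sum_mul, add_comm]
      rw [h1]
      have h3 : (Lam H e).mulVec (fun x => (Lam H e)⁻¹ x ⟨v, hv⟩) ⟨u, hu⟩ =
          (Lam H e * (Lam H e)⁻¹) ⟨u, hu⟩ ⟨v, hv⟩ := rfl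
      rw [h3, hN, Matrix.one_apply]
      by_cases huv : u = v
      · subst huv
        rw [if_pos rfl, if_pos rfl]
      · rw [if_neg huv, if_neg (fun hh => huv (congrArg Subtype.val hh))]

end Pool.Agent.H23.Q
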