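import Pool.Agent.H23.Q.Part

set_option autoImplicit false

/-!
Rooted sides (MP_a46c6f_co, note 7214): closed paths on four vertices.
-/

namespace Pool.Agent.H23.Q

open Finset Pool.Agent.H98.Code Pool.Agent.H17.P3 Pool.Agent.H98.TR

variable {X : Type} [Fintype X] [DecidableEq X] {B : Submodule (ZMod 2) (X → K)} {e : X}
  {om : X → K} {S : (X → K) → Finset X → Prop} {M : X → X → ZMod 2}

/-- the data of a closed path -/
structure C4 (e : X) (M : X → X → ZMod 2) (a b c d : X) : Prop where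
  nab : a ≠ b
  nac : a ≠ c
  nad : a ≠ d
  nbc : b ≠ c
  nbd : b ≠ d
  ncd : c ≠ d
  hae : a ≠ e
  hbe : b ≠ e
  hce : c ≠ e
  hde : d ≠ e
  aa : M a a = 0
  ab : M a b = 1
  ac : M a c = 0
  ad : M a d = 0
  ba : M b a = 1
  bb : M b b = 1
  bc : M b c = 1
  bd : M b d = 0
  ca : M c a = 0
  cb : M c b = 1
  cc : M c c = 1
  cd : M c d = 1
  da : M d a = 0
  db : M d b = 0
  dc : M d c = 1
  dd : M d d = 0

theorem mkC4 (h : St B e om M) {a b c d : X} (h4 : IsP4 M a b c d) (ha : M a a = 0)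
    (hb : M b b = 1) (hc' : M c c = 1) (hd : M d d = 0) : C4 e M a b c d := by
  have hab := h4.ab
  have hbc := h4.bc
  have hcd := h4.cd
  have hac := h4.ac
  have had := h4.ad
  have hbd := h4.bd
  have hba := (h.sym b a).trans hab
  have hcb := (h.sym c b).trans hbc
  have hdc := (h.sym d c).trans hcd
  have hca := (h.sym c a).trans hac
  have hda := (h.sym d a).trans had
  have hdb := (h.sym d b).trans hbd
  have one_ne : (1 : ZMod 2) ≠ 0 := by decide
  refine ⟨?_, ?_, ?_, ?_, ?_, ?_, ?_, ?_, ?_, ?_, ha, hab, hac, had, hba, hb, hbc, hbd, hca, hcb,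
    hc', hcd, hda, hdb, hdc, hd⟩
  · rintro rfl; exact one_ne (hb.symm.trans ha)
  · rintro rfl; exact one_ne (hc'.symm.trans ha)
  · rintro rfl; exact one_ne (hab.symm.trans hdb)
  · rintro rfl; exact one_ne (hba.symm.trans hca)
  · rintro rfl; exact one_ne (hb.symm.trans hd)
  · rintro rfl; exact one_ne (hc'.symm.trans hd)
  · rintro rfl; rw [h.me] at hab; exact one_ne hab.symm
  · rintro rfl; rw [h.me] at hbc; exact one_ne hbc.symm
  · rintro rfl; rw [h.me] at hcd; exact one_ne hcd.symm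
  · rintro rfl; rw [h.me] at hdc; exact one_ne hdc.symm

theorem C4.sum {a b c d : X} (q : C4 e M a b c d) (f : X → ZMod 2) :
    ∑ j ∈ ({a, b, c, d} : Finset X), f j = f a + (f b + (f c + f d)) := by
  have n1 : a ∉ ({b, c, d} : Finset X) := by simp [q.nab, q.nac, q.nad]
  have n2 : b ∉ ({c, d} : Finset X) := by simp [q.nbc, q.nbd]
  rw [Finset.sum_insert n1, Finset.sum_insert n2, Finset.sum_pair q.ncd]

/-- the word of a closed path -/
theorem C4.word (h : St B e om M) {a b c d : X} (q : C4 e M a b c d) :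
    ∃ u ∈ B, (∀ v, (u v).1 = M v a + (M v b + (M v c + M v d))) ∧
      (∀ v, kf (u v) (om v) = if v ∈ ({a, b, c, d} : Finset X) then 1 else 0) ∧ u e = 0 ∧
      ZFree u := by
  obtain ⟨u, hu, h1, h2, h3⟩ := setW h {a, b, c, d}
    (by simp [q.hae.symm, q.hbe.symm, q.hce.symm, q.hde.symm]) (by
      have n1 : a ∉ ({b, c, d} : Finset X) := by simp [q.nab, q.nac, q.nad]
      have n2 : b ∉ ({c, d} : Finset X) := by simp [q.nbc, q.nbd]
      rw [Finset.card_insert_of_notMem n1, Finset.card_insert_of_notMem n2,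
        Finset.card_pair q.ncd]
      decide)
  have h1' : ∀ v, (u v).1 = M v a + (M v b + (M v c + M v d)) := fun v => by
    rw [h1, q.sum]
  refine ⟨u, hu, h1', h2, h3, ?_⟩
  intro v hv
  have e1 := h1' v
  have e2 := h2 v
  rw [hv] at e1 e2
  rw [l_z _ (h.om1 v)] at e2
  by_cases hvT : v ∈ ({a, b, c, d} : Finset X)
  · simp only [Finset.mem_insert, Finset.mem_singleton] at hvT
    rcases hvT with rfl | rfl | rfl | rfl
    · rw [q.aa, q.ab, q.ac, q.ad] at e1; exact absurd e1 (by decide)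
    · rw [q.ba, q.bb, q.bc, q.bd] at e1; exact absurd e1 (by decide)
    · rw [q.ca, q.cb, q.cc, q.cd] at e1; exact absurd e1 (by decide)
    · rw [q.da, q.db, q.dc, q.dd] at e1; exact absurd e1 (by decide)
  · rw [if_neg hvT] at e2
    exact absurd e2 (by decide)

theorem dd7 : ∀ ga gb gc gd p q r w : ZMod 2, p + (q + (r + w)) = 1 →
    ((ga + q = 0 ∧ p = 0) ∨ (ga + (1 + q) = 0 ∧ 1 + p = 0)) →
    ((gb + (p + (q + r)) = 0 ∧ q = 0) ∨ (gb + ((1 + p) + ((1 + q) + (1 + r))) = 0 ∧ 1 + q = 0)) →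
    ((gc + (q + (r + w)) = 0 ∧ r = 0) ∨ (gc + ((1 + q) + ((1 + r) + (1 + w))) = 0 ∧ 1 + r = 0)) →
    ((gd + r = 0 ∧ w = 0) ∨ (gd + (1 + r) = 0 ∧ 1 + w = 0)) → ga ≠ gd ∧ gb ≠ gc := d7

/-- the conclusion of `P4Split` for `g` -/
def Good4 (M : X → X → ZMod 2) (a b c d g : X) : Prop :=
  Bad M a b c d g ∧ ∀ y, M a y = M b y → M a y = M c y → M a y = M d y → M g y = M a y

/-- the split case -/
theorem C4.split (h : St B e om M) {a b c d : X} (q : C4 e M a b c d) {u : X → K}
    (h2 : ∀ v, kf (u v) (om v) = if v ∈ ({a, b, c, d} : Finset X) then 1 else 0)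
    (hue : u e = 0) {g : X} (hs : Splits B u g) : Good4 M a b c d g := by
  obtain ⟨p, hp, hv⟩ := split_data h hue h2 hs
  rw [q.sum] at hp
  have kA := hv a
  have kB := hv b
  have kC := hv c
  have kD := hv d
  have ma : a ∈ ({a, b, c, d} : Finset X) := by simp
  have mb : b ∈ ({a, b, c, d} : Finset X) := by simp
  have mc : c ∈ ({a, b, c, d} : Finset X) := by simp
  have md : d ∈ ({a, b, c, d} : Finset X) := by simp
  rw [q.sum, q.sum, q.aa, q.ab, q.ac, q.ad] at kA
  rw [q.sum, q.sum, q.ba, q.bb, q.bc, q.bd] at kB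
  rw [q.sum, q.sum, q.ca, q.cb, q.cc, q.cd] at kC
  rw [q.sum, q.sum, q.da, q.db, q.dc, q.dd] at kD
  simp only [mul_zero, mul_one, zero_add, add_zero, ma, mb, mc, md, true_implies] at kA kB kC kD
  rw [h.sym a g] at kA
  rw [h.sym b g] at kB
  rw [h.sym c g] at kC
  rw [h.sym d g] at kD
  refine ⟨dd7 _ _ _ _ _ _ _ _ hp kA kB kC kD, ?_⟩
  intro y y1 y2 y3
  have k := (hv y).imp And.left And.left
  rw [q.sum, q.sum, h.sym y g, h.sym y a, h.sym y b, h.sym y c, h.sym y d, ← y1, ← y2,
    ← y3] at k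
  exact d8 _ _ _ _ _ _ hp k

theorem ex_J : ∀ x y z w : ZMod 2, x + (y + (z + w)) = 0 → ∃ p q r s : ZMod 2,
    x + q = p ∧ y + (p + (q + r)) = q ∧ z + (q + (r + s)) = r ∧ w + r = s := by
  decide

theorem b4 : ∀ x y z w p q r s : ZMod 2, p + (q + (r + s)) = 1 →
    x + q = p → y + (p + (q + r)) = q → z + (q + (r + s)) = r → w + r = s → x ≠ w ∧ y ≠ z := by
  decide

theorem c4 : ∀ x al p q r s : ZMod 2, p + (q + (r + s)) = 1 →
    x + (p * al + (q * al + (r * al + s * al))) = 0 → x = al := by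
  decide

theorem zsum4 : ∀ a : ZMod 2, a + (a + (a + a)) = 0 := by decide

/-- an own vertex of the side of a closed path is bad -/
theorem C4.own (h : St B e om M) (hS : RS B e S) {a b c d : X} (q : C4 e M a b c d) {u : X → K}
    (h1 : ∀ v, (u v).1 = M v a + (M v b + (M v c + M v d)))
    (h2 : ∀ v, kf (u v) (om v) = if v ∈ ({a, b, c, d} : Finset X) then 1 else 0)
    {Y : Finset X} (hu : S u Y) {y : X} (hy : y ∈ Y) : Good4 M a b c d y := by
  obtain ⟨-, huz, hue, heY, huY⟩ := hS.mem u Y hu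
  have hTne : ∀ v, v ∈ ({a, b, c, d} : Finset X) → u v ≠ 0 := by
    intro v hv h0
    have := h2 v
    rw [h0, l_zero, if_pos hv] at this
    exact absurd this (by decide)
  have ma : a ∈ ({a, b, c, d} : Finset X) := by simp
  have mb : b ∈ ({a, b, c, d} : Finset X) := by simp
  have mc : c ∈ ({a, b, c, d} : Finset X) := by simp
  have md : d ∈ ({a, b, c, d} : Finset X) := by simp
  -- the main computation for any own vertex
  have key : ∀ y ∈ Y, ∃ p : X → ZMod 2, p a + (p b + (p c + p d)) = 1 ∧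
      (M y a ≠ M y d ∧ M y b ≠ M y c) ∧
      ∀ v, u v = 0 → v ∉ Y →
        M v y + (p a * M v a + (p b * M v b + (p c * M v c + p d * M v d))) = 0 := by
    intro y hy
    have hyT : y ∉ ({a, b, c, d} : Finset X) := fun hh => hTne y hh (huY y hy)
    have hye : y ≠ e := fun h0 => heY (h0 ▸ hy)
    have hya : y ≠ a := fun h0 => hyT (h0 ▸ ma)
    have hyb : y ≠ b := fun h0 => hyT (h0 ▸ mb)
    have hyc : y ≠ c := fun h0 => hyT (h0 ▸ mc)
    have hyd : y ≠ d := fun h0 => hyT (h0 ▸ md)
    obtain ⟨ja, jb, jc, jd, f1, f2, f3, f4⟩ := ex_J (M y a) (M y b) (M y c) (M y d) (by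
      rw [← h1 y, huY y hy]; rfl)
    obtain ⟨ry, hry, ry1, ry2⟩ := h.row y hye
    obtain ⟨ra, hra, ra1, ra2⟩ := h.row a q.hae
    obtain ⟨rb, hrb, rb1, rb2⟩ := h.row b q.hbe
    obtain ⟨rc, hrc, rc1, rc2⟩ := h.row c q.hce
    obtain ⟨rd, hrd, rd1, rd2⟩ := h.row d q.hde
    set w : X → K := ry + (ja • ra + (jb • rb + (jc • rc + jd • rd))) with hw
    have hwB : w ∈ B := B.add_mem hry (B.add_mem (B.smul_mem _ hra) (B.add_mem (B.smul_mem _ hrb)
      (B.add_mem (B.smul_mem _ hrc) (B.smul_mem _ hrd))))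
    have w1 : ∀ v, (w v).1 = M y v + (ja * M a v + (jb * M b v + (jc * M c v + jd * M d v))) := by
      intro v
      simp only [hw, Pi.add_apply, Pi.smul_apply, Prod.fst_add, Prod.smul_fst, smul_eq_mul, ry1,
        ra1, rb1, rc1, rd1]
    have w2 : ∀ v, v ≠ e → kf (w v) (om v) = (if v = y then 1 else 0) +
        (ja * (if v = a then 1 else 0) + (jb * (if v = b then 1 else 0) +
        (jc * (if v = c then 1 else 0) + jd * (if v = d then 1 else 0)))) := by
      intro v hv
      simp only [hw, Pi.add_apply, Pi.smul_apply, l_add, l_smul, ry2, ra2, rb2, rc2, rd2, hv,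
        or_false]
    have hT : ∀ j ∈ ({a, b, c, d} : Finset X), (w j).1 = kf (w j) (om j) := by
      intro j hj
      simp only [Finset.mem_insert, Finset.mem_singleton] at hj
      rcases hj with rfl | rfl | rfl | rfl
      · rw [w1, w2 _ q.hae, q.aa, q.ba, q.ca, q.da, if_neg hya.symm, if_pos rfl, if_neg q.nab,
          if_neg q.nac, if_neg q.nad]
        simp only [mul_zero, mul_one, zero_add, add_zero]
        exact f1
      · rw [w1, w2 _ q.hbe, q.ab, q.bb, q.cb, q.db, if_neg hyb.symm, if_neg q.nab.symm, if_pos rfl,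
          if_neg q.nbc, if_neg q.nbd]
        simp only [mul_zero, mul_one, zero_add, add_zero]
        exact f2
      · rw [w1, w2 _ q.hce, q.ac, q.bc, q.cc, q.dc, if_neg hyc.symm, if_neg q.nac.symm,
          if_neg q.nbc.symm, if_pos rfl, if_neg q.ncd]
        simp only [mul_zero, mul_one, zero_add, add_zero]
        exact f3
      · rw [w1, w2 _ q.hde, q.ad, q.bd, q.cd, q.dd, if_neg hyd.symm, if_neg q.nad.symm,
          if_neg q.nbd.symm, if_neg q.ncd.symm, if_pos rfl]
        simp only [mul_zero, mul_one, zero_add, add_zero]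
        exact f4
    obtain ⟨p, hp, hp2, hp3⟩ := fpart h hS hu h2 hwB (by
      intro v huv
      have hve : v ≠ e := fun h0 => huv (h0 ▸ hue)
      by_cases hvT : v ∈ ({a, b, c, d} : Finset X)
      · have h5 := h2 v
        rw [if_pos hvT] at h5
        exact l_j _ _ _ (h.om1 v) (l_third _ _ (h.om1 v) (huz v) h5) h5 (hT v hvT)
      · have h5 := h2 v
        rw [if_neg hvT] at h5
        refine l_le' _ _ _ (h.om1 v) huv h5 ?_
        have hvy : v ≠ y := fun h0 => huv (h0 ▸ huY y hy)
        simp only [Finset.mem_insert, Finset.mem_singleton, not_or] at hvT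
        rw [w2 v hve, if_neg hvy, if_neg hvT.1, if_neg hvT.2.1, if_neg hvT.2.2.1,
          if_neg hvT.2.2.2]
        simp) hy (by
      intro v hv
      have hve : v ≠ e := fun h0 => heY (h0 ▸ hv)
      have hvT : v ∉ ({a, b, c, d} : Finset X) := fun hh => hTne v hh (huY v hv)
      simp only [Finset.mem_insert, Finset.mem_singleton, not_or] at hvT
      rw [w2 v hve, if_neg hvT.1, if_neg hvT.2.1, if_neg hvT.2.2.1, if_neg hvT.2.2.2]
      simp)
    rw [q.sum] at hp
    have kA := hp2 a ma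
    have kB := hp2 b mb
    have kC := hp2 c mc
    have kD := hp2 d md
    rw [q.sum, q.aa, q.ab, q.ac, q.ad, h.sym a y] at kA
    rw [q.sum, q.ba, q.bb, q.bc, q.bd, h.sym b y] at kB
    rw [q.sum, q.ca, q.cb, q.cc, q.cd, h.sym c y] at kC
    rw [q.sum, q.da, q.db, q.dc, q.dd, h.sym d y] at kD
    simp only [mul_zero, mul_one, zero_add, add_zero] at kA kB kC kD
    refine ⟨p, hp, b4 _ _ _ _ _ _ _ _ hp kA kB kC kD, ?_⟩
    intro v hv hvY
    have := hp3 v hv hvY
    rwa [q.sum] at this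
  obtain ⟨p, hp, hbad, hz⟩ := key y hy
  refine ⟨hbad, ?_⟩
  intro v e1 e2 e3
  have e1' : M v b = M v a := by rw [h.sym v b, ← e1, h.sym]
  have e2' : M v c = M v a := by rw [h.sym v c, ← e2, h.sym]
  have e3' : M v d = M v a := by rw [h.sym v d, ← e3, h.sym]
  have hvY : v ∉ Y := by
    intro hvY
    obtain ⟨-, -, hb, -⟩ := key v hvY
    exact hb.1 e3'.symm
  have hvT : v ∉ ({a, b, c, d} : Finset X) := by
    intro hv
    simp only [Finset.mem_insert, Finset.mem_singleton] at hv
    rcases hv with rfl | rfl | rfl | rfl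
    · rw [q.ab, q.aa] at e1'; exact absurd e1' (by decide)
    · rw [q.bd, q.ba] at e3'; exact absurd e3' (by decide)
    · rw [q.cb, q.ca] at e1'; exact absurd e1' (by decide)
    · rw [q.dc, q.da] at e2'; exact absurd e2' (by decide)
  have huv : u v = 0 := by
    refine l_eq_zero _ _ (h.om1 v) ?_ ?_
    · rw [h1, e1', e2', e3']; exact zsum4 _
    · rw [h2, if_neg hvT]
  have h5 := hz v huv hvY
  rw [e1', e2', e3'] at h5
  rw [h.sym y v, h.sym a v]
  exact c4 _ _ _ _ _ _ hp h5

theorem i4 : ∀ p q r s : ZMod 2, q = p → p + (q + r) = q → q + (r + s) = r → r = s →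
    (p = 0 ∧ q = 0 ∧ r = 0 ∧ s = 0) ∨ (p = 1 ∧ q = 1 ∧ r = 1 ∧ s = 1) := by
  decide

/-- the word of a closed path is minimal -/
theorem C4.irr (h : St B e om M) {a b c d : X} (q : C4 e M a b c d) {u : X → K} (huB : u ∈ B)
    (huz : ZFree u) (hue : u e = 0)
    (h2 : ∀ v, kf (u v) (om v) = if v ∈ ({a, b, c, d} : Finset X) then 1 else 0) : Irr B u := by
  intro k hk hle
  have hke : k e = 0 := by
    rcases hle e with h3 | h3
    · exact h3
    · rw [h3, hue]
  have hout : ∀ w, w ∉ ({a, b, c, d} : Finset X) → kf (k w) (om w) = 0 := by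
    intro w hw
    rcases hle w with h3 | h3
    · rw [h3]; exact l_zero _
    · rw [h3, h2, if_neg hw]
  have hval : ∀ v, (k v).1 = kf (k a) (om a) * M v a + (kf (k b) (om b) * M v b +
      (kf (k c) (om c) * M v c + kf (k d) (om d) * M v d)) := by
    intro v
    rw [h.val k hk (by rw [hke]; rfl) v,
      ← Finset.sum_subset (Finset.subset_univ ({a, b, c, d} : Finset X))
      (fun w _ hw => by rw [hout w hw, mul_zero]), q.sum]
    simp only [mul_comm]
  have hT : ∀ j ∈ ({a, b, c, d} : Finset X), (k j).1 = kf (k j) (om j) := by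
    intro j hj
    rcases hle j with h3 | h3
    · rw [h3, l_zero]; rfl
    · have h5 := h2 j
      rw [if_pos hj] at h5
      rw [h3, h5]
      exact l_third _ _ (h.om1 j) (huz j) h5
  have kA := hT a (by simp)
  have kB := hT b (by simp)
  have kC := hT c (by simp)
  have kD := hT d (by simp)
  rw [hval, q.aa, q.ab, q.ac, q.ad] at kA
  rw [hval, q.ba, q.bb, q.bc, q.bd] at kB
  rw [hval, q.ca, q.cb, q.cc, q.cd] at kC
  rw [hval, q.da, q.db, q.dc, q.dd] at kD
  simp only [mul_zero, mul_one, zero_add, add_zero] at kA kB kC kD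
  rcases i4 _ _ _ _ kA kB kC kD with ⟨g1, g2, g3, g4⟩ | ⟨g1, g2, g3, g4⟩
  · left
    apply h.ker hk (by rw [hke]; rfl)
    intro v
    by_cases hv : v ∈ ({a, b, c, d} : Finset X)
    · simp only [Finset.mem_insert, Finset.mem_singleton] at hv
      rcases hv with rfl | rfl | rfl | rfl
      · exact g1
      · exact g2
      · exact g3
      · exact g4
    · exact hout v hv
  · right
    have h5 : k + u = 0 := by
      apply h.ker (B.add_mem hk huB) (by rw [Pi.add_apply, hke, hue]; rfl)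
      intro v
      rw [Pi.add_apply, l_add, h2]
      by_cases hv : v ∈ ({a, b, c, d} : Finset X)
      · rw [if_pos hv]
        simp only [Finset.mem_insert, Finset.mem_singleton] at hv
        rcases hv with rfl | rfl | rfl | rfl
        · rw [g1]; decide
        · rw [g2]; decide
        · rw [g3]; decide
        · rw [g4]; decide
      · rw [if_neg hv, hout v hv, add_zero]
    funext v
    have := congrFun h5 v
    rw [Pi.add_apply, Pi.zero_apply] at this
    exact (l_add0 _ _ this).symm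

/-- a closed path has a good point -/
theorem p4split (h : St B e om M) (hS : RS B e S) : P4Split M := by
  intro a b c d h4 ha hb hc hd
  have q := mkC4 h h4 ha hb hc hd
  obtain ⟨u, hu, h1, h2, hue, huz⟩ := q.word h
  have hu0 : u ≠ 0 := by
    intro h0
    have := h2 a
    rw [h0, Pi.zero_apply, l_zero, if_pos (by simp)] at this
    exact absurd this (by decide)
  by_cases hs : ∃ g, Splits B u g
  · obtain ⟨g, hg⟩ := hs
    exact ⟨g, q.split h h2 hue hg⟩
  · push Not at hs
    obtain ⟨Y, hY⟩ := hS.ex u hu huz hue hu0 (q.irr h hu huz hue h2) hs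
    obtain ⟨y, hy⟩ : Y.Nonempty := by
      rw [Finset.nonempty_iff_ne_empty]
      rintro rfl
      obtain ⟨g, hg⟩ := hS.wc u hY hu0
      exact hs g hg
    exact ⟨y, q.own h hS h1 h2 hY hy⟩

end Pool.Agent.H23.Q
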