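import Pool.Agent.H23.Q.P4
import Pool.Agent.H81.P4.Main
import Pool.Agent.H17.P3.TreeEnd

set_option autoImplicit false

/-!
Rooted sides (MP_a46c6f_co, note 7214): closed pairs; the tree.
-/

namespace Pool.Agent.H23.Q

open Finset Pool.Agent.H98.Code Pool.Agent.H17.P3 Pool.Agent.H98.TR Pool.Agent.H17.TR

variable {X : Type} [Fintype X] [DecidableEq X] {B : Submodule (ZMod 2) (X → K)} {e : X}
  {om : X → K} {S : (X → K) → Finset X → Prop} {M : X → X → ZMod 2}

/-- the data of a closed pair -/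
structure C2 (e : X) (M : X → X → ZMod 2) (a b : X) : Prop where
  nab : a ≠ b
  hae : a ≠ e
  hbe : b ≠ e
  bb : M b b = M a a
  ab : M a b = 1 + M a a
  ba : M b a = 1 + M a a

theorem z_ne : ∀ a b : ZMod 2, a ≠ b → a = 1 + b := by decide

theorem mkC2 (h : St B e om M) {a b : X} (h1 : M a a = M b b) (h2 : M a b ≠ M a a) :
    C2 e M a b := by
  have h3 := z_ne _ _ h2
  refine ⟨?_, ?_, ?_, h1.symm, h3, (h.sym b a).trans h3⟩
  · rintro rfl; exact h2 rfl
  · rintro rfl
    rw [h.me, h.me] at h2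
    exact h2 rfl
  · rintro rfl
    rw [h1, h.me, h.sym, h.me] at h2
    exact h2 rfl

/-- the word of a closed pair -/
theorem C2.word (h : St B e om M) {a b : X} (q : C2 e M a b) :
    ∃ u ∈ B, (∀ v, (u v).1 = M v a + M v b) ∧
      (∀ v, kf (u v) (om v) = if v ∈ ({a, b} : Finset X) then 1 else 0) ∧ u e = 0 ∧
      ZFree u := by
  obtain ⟨u, hu, h1, h2, h3⟩ := setW h {a, b} (by simp [q.hae.symm, q.hbe.symm]) (by
      rw [Finset.card_pair q.nab]
      decide)
  have h1' : ∀ v, (u v).1 = M v a + M v b := fun v => by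
    rw [h1, Finset.sum_pair q.nab]
  refine ⟨u, hu, h1', h2, h3, ?_⟩
  intro v hv
  have e1 := h1' v
  have e2 := h2 v
  rw [hv] at e1 e2
  rw [l_z _ (h.om1 v)] at e2
  have hx : ∀ x : ZMod 2, (z : K).1 ≠ x + (1 + x) := by decide
  have hx' : ∀ x : ZMod 2, (z : K).1 ≠ (1 + x) + x := by decide
  by_cases hvT : v ∈ ({a, b} : Finset X)
  · simp only [Finset.mem_insert, Finset.mem_singleton] at hvT
    rcases hvT with rfl | rfl
    · rw [q.ab] at e1; exact hx _ e1
    · rw [q.ba, q.bb] at e1; exact hx' _ e1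
  · rw [if_neg hvT] at e2
    exact absurd e2 (by decide)

/-- the conclusion of `Pairs` for `g` -/
def Good2 (M : X → X → ZMod 2) (a b g : X) : Prop :=
  M g g ≠ M a a ∧ M g a = M g g ∧ M g b = M g g ∧ ∀ x, M a x = M b x → M g x = M a x

theorem p2a : ∀ x s p r : ZMod 2, p + r = 1 →
    ((x + (p * s + r * (1 + s)) = 0 ∧ p = 0) ∨
      (x + ((1 + p) * s + (1 + r) * (1 + s)) = 0 ∧ 1 + p = 0)) → x = 1 + s := by decide

theorem p2b : ∀ x s p r : ZMod 2, p + r = 1 →
    ((x + (p * (1 + s) + r * s) = 0 ∧ r = 0) ∨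
      (x + ((1 + p) * (1 + s) + (1 + r) * s) = 0 ∧ 1 + r = 0)) → x = 1 + s := by decide

theorem p2c : ∀ x y w p r : ZMod 2, p + r = 1 →
    (x + (p * y + r * w) = 0 ∨ x + ((1 + p) * y + (1 + r) * w) = 0) → x = y ∨ x = w := by decide

/-- the split case -/
theorem C2.split (h : St B e om M) {a b : X} (q : C2 e M a b) {u : X → K}
    (h2 : ∀ v, kf (u v) (om v) = if v ∈ ({a, b} : Finset X) then 1 else 0)
    (hue : u e = 0) {g : X} (hs : Splits B u g) : Good2 M a b g := by
  obtain ⟨p, hp, hv⟩ := split_data h hue h2 hs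
  rw [Finset.sum_pair q.nab] at hp
  have kA := hv a
  have kB := hv b
  have ma : a ∈ ({a, b} : Finset X) := by simp
  have mb : b ∈ ({a, b} : Finset X) := by simp
  rw [Finset.sum_pair q.nab, Finset.sum_pair q.nab, q.ab] at kA
  rw [Finset.sum_pair q.nab, Finset.sum_pair q.nab, q.ba, q.bb] at kB
  simp only [ma, mb, true_implies] at kA kB
  have g1 := p2a _ _ _ _ hp kA
  have g2 := p2b _ _ _ _ hp kB
  rw [h.sym a g] at g1
  rw [h.sym b g] at g2
  have g3 : ∀ v, M v g = M v a ∨ M v g = M v b := by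
    intro v
    have k := (hv v).imp And.left And.left
    rw [Finset.sum_pair q.nab, Finset.sum_pair q.nab] at k
    exact p2c _ _ _ _ _ hp k
  have g4 : M g g = 1 + M a a := by
    rcases g3 g with h5 | h5
    · rw [h5, g1]
    · rw [h5, g2]
  refine ⟨?_, g1.trans g4.symm, g2.trans g4.symm, ?_⟩
  · rw [g4]
    generalize M a a = x
    revert x
    decide
  · intro x hx
    rcases g3 x with h5 | h5
    · rw [h.sym g x, h5, h.sym]
    · rw [h.sym g x, h5, h.sym x b, hx]

theorem s2a : ∀ y s p r : ZMod 2, p + r = 1 → y + (p * s + r * (1 + s)) = p → y = 1 + s := by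
  decide

theorem s2b : ∀ y s p r : ZMod 2, p + r = 1 → y + (p * (1 + s) + r * s) = r → y = 1 + s := by
  decide

theorem s2c : ∀ x y p r : ZMod 2, p + r = 1 → x + (p * y + r * y) = 0 → x = y := by
  decide

/-- own vertices of the side of a closed pair -/
theorem C2.own (h : St B e om M) (hS : RS B e S) {a b : X} (q : C2 e M a b) {u : X → K}
    (h1 : ∀ v, (u v).1 = M v a + M v b)
    (h2 : ∀ v, kf (u v) (om v) = if v ∈ ({a, b} : Finset X) then 1 else 0)
    {Y : Finset X} (hu : S u Y) {y : X} (hy : y ∈ Y) :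
    M a y = 1 + M a a ∧ M b y = 1 + M a a ∧ ∀ v, u v = 0 → v ∉ Y → M v y = M v a := by
  obtain ⟨-, huz, hue, heY, huY⟩ := hS.mem u Y hu
  have hTne : ∀ v, v ∈ ({a, b} : Finset X) → u v ≠ 0 := by
    intro v hv h0
    have := h2 v
    rw [h0, l_zero, if_pos hv] at this
    exact absurd this (by decide)
  have ma : a ∈ ({a, b} : Finset X) := by simp
  have mb : b ∈ ({a, b} : Finset X) := by simp
  have hyT : y ∉ ({a, b} : Finset X) := fun hh => hTne y hh (huY y hy)
  have hye : y ≠ e := fun h0 => heY (h0 ▸ hy)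
  have hya : y ≠ a := fun h0 => hyT (h0 ▸ ma)
  have hyb : y ≠ b := fun h0 => hyT (h0 ▸ mb)
  have hyy : M y a = M y b := by
    have := h1 y
    rw [huY y hy] at this
    have hx : ∀ x w : ZMod 2, (0 : K).1 = x + w → x = w := by decide
    exact hx _ _ this
  obtain ⟨ry, hry, ry1, ry2⟩ := h.row y hye
  set w : X → K := ry + (M y a) • om with hw
  have hwB : w ∈ B := B.add_mem hry (B.smul_mem _ h.omB)
  have w1 : ∀ v, (w v).1 = M y v + M y a := by
    intro v
    simp only [hw, Pi.add_apply, Pi.smul_apply, Prod.fst_add, Prod.smul_fst, smul_eq_mul, ry1,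
      h.om1, mul_one]
  have w2 : ∀ v, v ≠ e → kf (w v) (om v) = if v = y then 1 else 0 := by
    intro v hv
    simp only [hw, Pi.add_apply, Pi.smul_apply, l_add, l_smul, ry2, hv, or_false, l_self,
      mul_zero, add_zero]
  have hx0 : ∀ x : ZMod 2, x + x = 0 := by decide
  obtain ⟨p, hp, hp2, hp3⟩ := fpart h hS hu h2 hwB (by
    intro v huv
    have hve : v ≠ e := fun h0 => huv (h0 ▸ hue)
    have hvy : v ≠ y := fun h0 => huv (h0 ▸ huY y hy)
    by_cases hvT : v ∈ ({a, b} : Finset X)
    · left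
      refine l_eq_zero _ _ (h.om1 v) ?_ (by rw [w2 v hve, if_neg hvy])
      simp only [Finset.mem_insert, Finset.mem_singleton] at hvT
      rcases hvT with rfl | rfl
      · rw [w1]; exact hx0 _
      · rw [w1, hyy]; exact hx0 _
    · have h5 := h2 v
      rw [if_neg hvT] at h5
      refine l_le' _ _ _ (h.om1 v) huv h5 ?_
      rw [w2 v hve, if_neg hvy]) hy (fun v hv => w2 v (fun h0 => heY (h0 ▸ hv)))
  rw [Finset.sum_pair q.nab] at hp
  have kA := hp2 a ma
  have kB := hp2 b mb
  rw [Finset.sum_pair q.nab, q.ab] at kA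
  rw [Finset.sum_pair q.nab, q.ba, q.bb] at kB
  refine ⟨s2a _ _ _ _ hp kA, s2b _ _ _ _ hp kB, ?_⟩
  intro v hv hvY
  have h5 := hp3 v hv hvY
  have h6 : M v b = M v a := by
    have := h1 v
    rw [hv] at this
    have hx : ∀ x w : ZMod 2, (0 : K).1 = x + w → w = x := by decide
    exact hx _ _ this
  rw [Finset.sum_pair q.nab, h6] at h5
  exact s2c _ _ _ _ hp h5

theorem i2 : ∀ p r : ZMod 2, p + r = 0 → (p = 0 ∧ r = 0) ∨ (p = 1 ∧ r = 1) := by decide

/-- the word of a closed pair is minimal -/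
theorem C2.irr (h : St B e om M) {a b : X} (q : C2 e M a b) {u : X → K} (huB : u ∈ B)
    (huz : ZFree u) (hue : u e = 0)
    (h2 : ∀ v, kf (u v) (om v) = if v ∈ ({a, b} : Finset X) then 1 else 0) : Irr B u := by
  intro k hk hle
  have hke : k e = 0 := by
    rcases hle e with h3 | h3
    · exact h3
    · rw [h3, hue]
  have hout : ∀ w, w ∉ ({a, b} : Finset X) → kf (k w) (om w) = 0 := by
    intro w hw
    rcases hle w with h3 | h3
    · rw [h3]; exact l_zero _
    · rw [h3, h2, if_neg hw]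
  have hpar : kf (k a) (om a) + kf (k b) (om b) = 0 := by
    have h3 := h.iso k hk om h.omB
    unfold form at h3
    rw [← Finset.sum_subset (Finset.subset_univ ({a, b} : Finset X)) (fun w _ hw => hout w hw),
      Finset.sum_pair q.nab] at h3
    exact h3
  rcases i2 _ _ hpar with ⟨g1, g2⟩ | ⟨g1, g2⟩
  · left
    apply h.ker hk (by rw [hke]; rfl)
    intro v
    by_cases hv : v ∈ ({a, b} : Finset X)
    · simp only [Finset.mem_insert, Finset.mem_singleton] at hv
      rcases hv with rfl | rfl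
      · exact g1
      · exact g2
    · exact hout v hv
  · right
    have h5 : k + u = 0 := by
      apply h.ker (B.add_mem hk huB) (by rw [Pi.add_apply, hke, hue]; rfl)
      intro v
      rw [Pi.add_apply, l_add, h2]
      by_cases hv : v ∈ ({a, b} : Finset X)
      · rw [if_pos hv]
        simp only [Finset.mem_insert, Finset.mem_singleton] at hv
        rcases hv with rfl | rfl
        · rw [g1]; decide
        · rw [g2]; decide
      · rw [if_neg hv, hout v hv, add_zero]
    funext v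
    have := congrFun h5 v
    rw [Pi.add_apply, Pi.zero_apply] at this
    exact (l_add0 _ _ this).symm

theorem y1 : ∀ s : ZMod 2, (1 + s) + (1 + s) = 0 := by decide
theorem y2 : ∀ s : ZMod 2, (1 + s) + s = 1 := by decide
theorem y3 : ∀ s : ZMod 2, s + (1 + s) = 1 := by decide
theorem y4 : ∀ s l : ZMod 2, l = s ∨ l = 1 + s := by decide
theorem y5 : ∀ s : ZMod 2, s ≠ 1 + s := by decide

/-- the step: an unsplit closed pair whose side is minimal does not exist -/
theorem pair_step (h : St B e om M) (hS : RS B e S) {a b : X} (q : C2 e M a b) {u : X → K}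
    (huB : u ∈ B) (h1 : ∀ v, (u v).1 = M v a + M v b)
    (h2 : ∀ v, kf (u v) (om v) = if v ∈ ({a, b} : Finset X) then 1 else 0)
    {Y : Finset X} (hu : S u Y) (hns : ∀ g, ¬ Splits B u g)
    (ih : ∀ a' b' : X, C2 e M a' b' → ∀ u' : X → K, u' ∈ B → (∀ v, (u' v).1 = M v a' + M v b') →
      (∀ v, kf (u' v) (om v) = if v ∈ ({a', b'} : Finset X) then 1 else 0) →
      ∀ Y' : Finset X, S u' Y' → Y'.card < Y.card → ∃ g, Splits B u' g) : False := by
  classical
  obtain ⟨-, huz, hue, heY, huY⟩ := hS.mem u Y hu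
  have hirr : Irr B u := q.irr h huB huz hue h2
  have own := fun y (hy : y ∈ Y) => q.own h hS h1 h2 hu hy
  have hTne : ∀ v, v ∈ ({a, b} : Finset X) → u v ≠ 0 := by
    intro v hv h0
    have := h2 v
    rw [h0, l_zero, if_pos hv] at this
    exact absurd this (by decide)
  have ma : a ∈ ({a, b} : Finset X) := by simp
  have mb : b ∈ ({a, b} : Finset X) := by simp
  have hua : (u a).1 = 1 := l_third _ _ (h.om1 a) (huz a) (by rw [h2, if_pos ma])
  have hu0 : u ≠ 0 := fun h0 => hTne a ma (by rw [h0]; rfl)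
  obtain ⟨y0, hy0⟩ : Y.Nonempty := by
    rw [Finset.nonempty_iff_ne_empty]
    rintro rfl
    obtain ⟨g, hg⟩ := hS.wc u hu hu0
    exact hns g hg
  -- words of even subsets of `Y` live inside the side
  have hbelow : ∀ (T' : Finset X) (u' : X → K), (∀ j ∈ T', j ∈ Y) →
      (∀ v, (u' v).1 = ∑ j ∈ T', M v j) →
      (∀ v, kf (u' v) (om v) = if v ∈ T' then 1 else 0) → ((T'.card : ℕ) : ZMod 2) = 0 →
      Below u Y u' := by
    intro T' u' hT' hu1 hu2 hev
    have hc : ∀ x : ZMod 2, ∑ j ∈ T', x = 0 := by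
      intro x
      rw [Finset.sum_const, nsmul_eq_mul, hev, zero_mul]
    constructor
    · intro v huv hvY
      refine l_eq_zero _ _ (h.om1 v) ?_ ?_
      · rw [hu1, Finset.sum_congr rfl fun j hj => (own j (hT' j hj)).2.2 v huv hvY]
        exact hc _
      · rw [hu2, if_neg (fun hv => hvY (hT' v hv))]
    · intro v huv
      have hvY : v ∉ Y := fun hv => huv (huY v hv)
      have hk : kf (u' v) (om v) = 0 := by rw [hu2, if_neg (fun hv => hvY (hT' v hv))]
      by_cases hvT : v ∈ ({a, b} : Finset X)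
      · left
        refine l_eq_zero _ _ (h.om1 v) ?_ hk
        simp only [Finset.mem_insert, Finset.mem_singleton] at hvT
        rcases hvT with rfl | rfl
        · rw [hu1, Finset.sum_congr rfl fun j hj => (own j (hT' j hj)).1]
          exact hc _
        · rw [hu1, Finset.sum_congr rfl fun j hj => (own j (hT' j hj)).2.1]
          exact hc _
      · have h5 := h2 v
        rw [if_neg hvT] at h5
        exact l_le' _ _ _ (h.om1 v) huv h5 hk
  -- the matrix on `Y`
  let M' : Y → Y → ZMod 2 := fun x y => M x.1 y.1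
  have hs' : ∀ x y, M' x y = M' y x := fun x y => h.sym _ _
  have hPairs : Pairs M' := by
    rintro ⟨x, hx⟩ ⟨y, hy⟩ e1 e2
    have q' : C2 e M x y := mkC2 h e1 e2
    obtain ⟨u', hu'B, h1', h2', hue', huz'⟩ := q'.word h
    have hb : Below u Y u' := hbelow {x, y} u' (by
      intro j hj
      simp only [Finset.mem_insert, Finset.mem_singleton] at hj
      rcases hj with rfl | rfl
      · exact hx
      · exact hy) (fun v => by rw [h1', Finset.sum_pair q'.nab]) h2' (by
        rw [Finset.card_pair q'.nab]; decide)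
    obtain ⟨Y', hY', hSY'⟩ := inner hS hu hirr hu'B hb huz'
    have hlt : Y'.card < Y.card := by
      apply Finset.card_lt_card
      rw [Finset.ssubset_iff_of_subset hY']
      refine ⟨x, hx, ?_⟩
      intro hx'
      have h5 := (hS.mem u' Y' hSY').2.2.2.2 x hx'
      have h6 := h2' x
      rw [h5, l_zero, if_pos (by simp)] at h6
      exact absurd h6 (by decide)
    obtain ⟨g, hg⟩ := ih x y q' u' hu'B h1' h2' Y' hSY' hlt
    have hgY : g ∈ Y := gY h.iso hS hu hns hb hg
    obtain ⟨g1, g2, g3, g4⟩ := q'.split h h2' hue' hg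
    exact ⟨⟨g, hgY⟩, g1, g2, g3, fun x hx => g4 x.1 hx⟩
  have hP4 : P4Split M' := by
    rintro ⟨a1, ha1⟩ ⟨b1, hb1⟩ ⟨c1, hc1⟩ ⟨d1, hd1⟩ h4 e1 e2 e3 e4
    have q' : C4 e M a1 b1 c1 d1 :=
      mkC4 h ⟨h4.ab, h4.bc, h4.cd, h4.ac, h4.ad, h4.bd⟩ e1 e2 e3 e4
    obtain ⟨u', hu'B, h1', h2', hue', huz'⟩ := q'.word h
    have hb : Below u Y u' := hbelow {a1, b1, c1, d1} u' (by
      intro j hj
      simp only [Finset.mem_insert, Finset.mem_singleton] at hj
      rcases hj with rfl | rfl | rfl | rfl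
      · exact ha1
      · exact hb1
      · exact hc1
      · exact hd1) (fun v => by rw [h1', q'.sum]) h2' (by
        have n1 : a1 ∉ ({b1, c1, d1} : Finset X) := by simp [q'.nab, q'.nac, q'.nad]
        have n2 : b1 ∉ ({c1, d1} : Finset X) := by simp [q'.nbc, q'.nbd]
        rw [Finset.card_insert_of_notMem n1, Finset.card_insert_of_notMem n2,
          Finset.card_pair q'.ncd]
        decide)
    have hu'0 : u' ≠ 0 := by
      intro h0
      have := h2' a1
      rw [h0, Pi.zero_apply, l_zero, if_pos (by simp)] at this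
      exact absurd this (by decide)
    by_cases hs : ∃ g, Splits B u' g
    · obtain ⟨g, hg⟩ := hs
      have hgY : g ∈ Y := gY h.iso hS hu hns hb hg
      obtain ⟨g1, g2⟩ := q'.split h h2' hue' hg
      exact ⟨⟨g, hgY⟩, g1, fun y f1 f2 f3 => g2 y.1 f1 f2 f3⟩
    · push Not at hs
      obtain ⟨Y', hY', hSY'⟩ := inner hS hu hirr hu'B hb huz'
      obtain ⟨g, hg⟩ : Y'.Nonempty := by
        rw [Finset.nonempty_iff_ne_empty]
        rintro rfl
        obtain ⟨g, hg⟩ := hS.wc u' hSY' hu'0
        exact hs g hg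
      obtain ⟨g1, g2⟩ := q'.own h hS h1' h2' hSY' hg
      exact ⟨⟨g, hY' hg⟩, g1, fun y f1 f2 f3 => g2 y.1 f1 f2 f3⟩
  haveI : Nonempty Y := ⟨⟨y0, hy0⟩⟩
  obtain ⟨⟨r, hr⟩, l, hl⟩ : ∃ (r : Y) (l : ZMod 2), ∀ y : Y, M' r y = l := by
    rcases Pool.Agent.H81.P4.iso_or_full hs' hPairs
      (Pool.Agent.H81.P4.P3_holds Y M' hs' hPairs hP4) with ⟨r, hr⟩ | ⟨r, hr⟩
    · exact ⟨r, 0, hr⟩
    · exact ⟨r, 1, hr⟩
  have hl' : ∀ y ∈ Y, M r y = l := fun y hy => hl ⟨y, hy⟩
  obtain ⟨or1, or2, or3⟩ := own r hr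
  have hra : r ≠ a := fun h0 => hTne a ma (h0 ▸ huY r hr)
  have hrb : r ≠ b := fun h0 => hTne b mb (h0 ▸ huY r hr)
  have hre : r ≠ e := fun h0 => heY (h0 ▸ hr)
  have hrT : r ∉ ({a, b} : Finset X) := by simp [hra, hrb]
  have hanY : a ∉ Y := fun hh => hTne a ma (huY a hh)
  obtain ⟨c, hcB, hc1, hc2, hce⟩ := setW h {r, a} (by simp [hre.symm, q.hae.symm]) (by
    rw [Finset.card_pair hra]; decide)
  have hc1' : ∀ v, (c v).1 = M v r + M v a := fun v => by rw [hc1, Finset.sum_pair hra]
  -- `c` lives inside the side, except at `r`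
  have hcsup : ∀ v, u v ≠ 0 → c v = 0 ∨ c v = u v := by
    intro v huv
    have hvr : v ≠ r := fun h0 => huv (h0 ▸ huY r hr)
    by_cases hva : v = a
    · subst hva
      right
      refine l_ext _ _ _ (h.om1 v) ?_ ?_
      · rw [hc1', or1, hua]; exact y2 _
      · rw [hc2, h2, if_pos (by simp), if_pos ma]
    · by_cases hvb : v = b
      · subst hvb
        left
        refine l_eq_zero _ _ (h.om1 v) ?_ ?_
        · rw [hc1', or2, q.ba]; exact y1 _
        · rw [hc2, if_neg (by simp [hvr, hva])]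
      · have h5 := h2 v
        rw [if_neg (by simp [hva, hvb])] at h5
        refine l_le' _ _ _ (h.om1 v) huv h5 ?_
        rw [hc2, if_neg (by simp [hvr, hva])]
  have hcout : ∀ v, u v = 0 → v ∉ Y → c v = 0 := by
    intro v huv hvY
    have hvr : v ≠ r := fun h0 => hvY (h0 ▸ hr)
    have hva : v ≠ a := fun h0 => hTne a ma (h0 ▸ huv)
    refine l_eq_zero _ _ (h.om1 v) ?_ ?_
    · rw [hc1', or3 v huv hvY]
      generalize M v a = x
      revert x
      decide
    · rw [hc2, if_neg (by simp [hvr, hva])]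
  rcases y4 (M a a) l with hls | hls
  · -- a closed pair `r`, `a` with letters on `Y`
    have hrr : M r r = M a a := by rw [hl' r hr, hls]
    have q' : C2 e M r a := by
      refine ⟨hra, hre, q.hae, hrr.symm, ?_, ?_⟩
      · rw [h.sym, or1, hrr]
      · rw [or1, hrr]
    have hcz : ZFree c := by
      intro v hv
      have e1 := hc1' v
      have e2 := hc2 v
      rw [hv] at e1 e2
      rw [l_z _ (h.om1 v)] at e2
      by_cases hvT : v ∈ ({r, a} : Finset X)
      · simp only [Finset.mem_insert, Finset.mem_singleton] at hvT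
        rcases hvT with rfl | rfl
        · rw [h.sym v a, or1, hrr, y3] at e1
          exact absurd e1 (by decide)
        · rw [or1, y2] at e1
          exact absurd e1 (by decide)
      · rw [if_neg hvT] at e2
        exact absurd e2 (by decide)
    obtain ⟨Y', hY', hSY'⟩ := inner hS hu hirr hcB ⟨hcout, hcsup⟩ hcz
    have hY0 : Y' = ∅ := by
      rw [Finset.eq_empty_iff_forall_notMem]
      intro v hv
      have h5 := (hS.mem c Y' hSY').2.2.2.2 v hv
      have h6 := hc1' v
      rw [h5, h.sym v r, hl' v (hY' hv), h.sym v a, (own v (hY' hv)).1, hls, y3] at h6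
      exact absurd h6 (by decide)
    subst hY0
    obtain ⟨g, hg⟩ := hS.wc c hSY' (by
      intro h0
      have h6 := hc2 a
      rw [h0, Pi.zero_apply, l_zero, if_pos (by simp)] at h6
      exact absurd h6 (by decide))
    have hgY : g ∈ Y := gY h.iso hS hu hns ⟨hcout, hcsup⟩ hg
    obtain ⟨g1, g2, -, -⟩ := q'.split h hc2 hce hg
    apply g1
    rw [← g2, h.sym g r, hl' g hgY, hl' r hr]
  · -- `u` splits at `r`
    have hrr : M r r = 1 + M a a := by rw [hl' r hr, hls]
    have hcr : c r = z := by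
      refine l_eqz _ _ (h.om1 r) ?_ ?_
      · rw [hc1', hrr, h.sym r a, or1]; exact y1 _
      · rw [hc2, if_pos (by simp)]
    apply hns r
    refine ⟨c, hcB, c + u, B.add_mem hcB huB, ?_, hcr, ?_, ?_⟩
    · funext v
      simp only [Pi.add_apply]
      exact l_cancel _ _
    · rw [Pi.add_apply, hcr, huY r hr, add_zero]
    · intro v hv
      rw [Pi.add_apply]
      by_cases huv : u v = 0
      · left
        by_cases hvY : v ∈ Y
        · have hva : v ≠ a := fun h0 => hanY (h0 ▸ hvY)
          refine l_eq_zero _ _ (h.om1 v) ?_ ?_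
          · rw [hc1', h.sym v r, hl' v hvY, h.sym v a, (own v hvY).1, hls]
            exact y1 _
          · rw [hc2, if_neg (by simp [hv, hva])]
        · exact hcout v huv hvY
      · rcases hcsup v huv with h5 | h5
        · exact Or.inl h5
        · right; rw [h5]; exact l_addself _

theorem pairs_aux (h : St B e om M) (hS : RS B e S) : ∀ (n : ℕ) (a b : X), C2 e M a b →
    ∀ u : X → K, u ∈ B → (∀ v, (u v).1 = M v a + M v b) →
      (∀ v, kf (u v) (om v) = if v ∈ ({a, b} : Finset X) then 1 else 0) →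
      ∀ Y : Finset X, S u Y → Y.card < n → ∃ g, Splits B u g := by
  intro n
  induction n with
  | zero => intro a b _ u _ _ _ Y _ hn; omega
  | succ n ih =>
    intro a b q u huB h1 h2 Y hu hn
    by_contra hns
    push Not at hns
    refine pair_step h hS q huB h1 h2 hu hns ?_
    intro a' b' q' u' hu'B h1' h2' Y' hSY' hlt
    exact ih a' b' q' u' hu'B h1' h2' Y' hSY' (by omega)

/-- closed pairs have midpoints -/
theorem pairs (h : St B e om M) (hS : RS B e S) : Pairs M := by
  intro a b e1 e2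
  have q : C2 e M a b := mkC2 h e1 e2
  obtain ⟨u, huB, h1, h2, hue, huz⟩ := q.word h
  have hu0 : u ≠ 0 := by
    intro h0
    have := h2 a
    rw [h0, Pi.zero_apply, l_zero, if_pos (by simp)] at this
    exact absurd this (by decide)
  have hs : ∃ g, Splits B u g := by
    by_contra hns
    push Not at hns
    obtain ⟨Y, hY⟩ := hS.ex u huB huz hue hu0 (q.irr h huB huz hue h2) hns
    obtain ⟨g, hg⟩ := pairs_aux h hS (Y.card + 1) a b q u huB h1 h2 Y hY (Nat.lt_succ_self _)
    exact hns g hg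
  obtain ⟨g, hg⟩ := hs
  exact ⟨g, q.split h h2 hue hg⟩

/-- **the heart** (note 7214): a code with rooted sides has a tree as its graph -/
theorem tree_of_sides {X : Type} [Fintype X] [DecidableEq X] (B : Submodule (ZMod 2) (X → K))
    (e : X) (S : (X → K) → Finset X → Prop) (hB : IsCode B) (hz : NoZ B) (hS : RS B e S) :
    (graph B).IsTree := by
  obtain ⟨H, hs, hm⟩ := exists_matrix hB hz
  have hH : IsMat B H := ⟨hs, hm⟩
  have hH' : Pool.Agent.H32.AA.IsMat B H := ⟨hs, hm⟩
  have heq : graph B = GrH H := by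
    ext v w
    rw [Pool.Agent.H32.AA.adj_iff hH', hH.adj]
  rw [heq]
  obtain ⟨M, hSt, hinv⟩ := exists_St hS hB.iso hH
  have hp := pairs hSt hS
  exact tree_end X e H M hs hSt.sym hSt.me hinv hp
    (Pool.Agent.H81.P4.P3_holds X M hSt.sym hp (p4split hSt hS))

end Pool.Agent.H23.Q
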