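import Pool.Agent.H23.Q.Mat
import Pool.Agent.H17.P3.Defs

set_option autoImplicit false

/-!
Rooted sides (MP_a46c6f_co, note 7214): halves of a splitting, parts of words, words of even sets.
-/

namespace Pool.Agent.H23.Q

open Finset Pool.Agent.H98.Code

variable {X : Type} [Fintype X] [DecidableEq X] {B : Submodule (ZMod 2) (X → K)} {e : X}
  {om : X → K} {S : (X → K) → Finset X → Prop} {M : X → X → ZMod 2}

theorem l_j0 : ∀ q o : K, o.1 = 1 → q.1 = kf q o → q = 0 ∨ (q.1 = 1 ∧ kf q o = 1) := by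
  decide

theorem l_j (q u o : K) (h1 : o.1 = 1) (h2 : u.1 = 1) (h3 : kf u o = 1) (h4 : q.1 = kf q o) :
    q = 0 ∨ q = u := by
  rcases l_j0 q o h1 h4 with h5 | h5
  · exact Or.inl h5
  · exact Or.inr (l_ext q u o h1 (h5.1.trans h2.symm) (h5.2.trans h3.symm))

theorem l_add0 : ∀ a b : K, a + b = 0 → b = a := by decide

theorem l_le' : ∀ q u o : K, o.1 = 1 → u ≠ 0 → kf u o = 0 → kf q o = 0 → q = 0 ∨ q = u := by
  decide

theorem l_addself : ∀ a : K, a + a = 0 := by decide

theorem l_cancel : ∀ a b : K, a + (a + b) = b := by decide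

theorem l_eqz : ∀ q o : K, o.1 = 1 → q.1 = 0 → kf q o = 1 → q = z := by decide

theorem St.ker (h : St B e om M) {c : X → K} (hc : c ∈ B) (hce : (c e).1 = 0)
    (hk : ∀ v, kf (c v) (om v) = 0) : c = 0 := by
  funext v
  refine l_eq_zero _ _ (h.om1 v) ?_ (hk v)
  rw [h.val c hc hce v]
  apply Finset.sum_eq_zero
  intro w _
  rw [hk w, mul_zero]

/-- a half of a splitting -/
theorem half (h : St B e om M) {u : X → K} (hue : u e = 0) {T : Finset X}
    (hT : ∀ v, kf (u v) (om v) = if v ∈ T then 1 else 0) {g : X} (hgT : g ∉ T)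
    {c : X → K} (hc : c ∈ B) (hg : c g = z) (hd : ∀ w, w ≠ g → c w = 0 ∨ c w = u w) :
    (∑ j ∈ T, kf (c j) (om j) = 1) ∧
      ∀ v, (c v).1 = M v g + ∑ j ∈ T, kf (c j) (om j) * M v j := by
  have hce : (c e).1 = 0 := by
    by_cases hge : e = g
    · rw [hge, hg]; rfl
    · rcases hd e hge with h1 | h1
      · rw [h1]; rfl
      · rw [h1, hue]; rfl
  have hout : ∀ w, w ∉ insert g T → kf (c w) (om w) = 0 := by
    intro w hw
    rw [Finset.mem_insert, not_or] at hw
    rcases hd w hw.1 with h1 | h1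
    · rw [h1]; exact l_zero _
    · rw [h1, hT, if_neg hw.2]
  have hgk : kf (c g) (om g) = 1 := by rw [hg]; exact l_z _ (h.om1 g)
  constructor
  · have h1 := h.iso c hc om h.omB
    unfold form at h1
    rw [← Finset.sum_subset (Finset.subset_univ (insert g T)) (fun w _ hw => hout w hw),
      Finset.sum_insert hgT, hgk] at h1
    generalize (∑ j ∈ T, kf (c j) (om j)) = a at h1 ⊢
    revert a
    decide
  · intro v
    rw [h.val c hc hce v, ← Finset.sum_subset (Finset.subset_univ (insert g T))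
      (fun w _ hw => by rw [hout w hw, mul_zero]), Finset.sum_insert hgT, hgk, mul_one]
    congr 1
    exact Finset.sum_congr rfl fun j _ => mul_comm _ _

theorem split_zero {u : X → K} {g : X} (hs : Splits B u g) : u g = 0 := by
  obtain ⟨c₁, h1, c₂, h2, hs, hg1, hg2, hd⟩ := hs
  rw [← hs, Pi.add_apply, hg1, hg2]
  decide

theorem split_data (h : St B e om M) {u : X → K} (hue : u e = 0) {T : Finset X}
    (hT : ∀ v, kf (u v) (om v) = if v ∈ T then 1 else 0) {g : X} (hsp : Splits B u g) :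
    ∃ p : X → ZMod 2, (∑ j ∈ T, p j = 1) ∧
      ∀ v, ((M v g + ∑ j ∈ T, p j * M v j = 0 ∧ (v ∈ T → p v = 0)) ∨
        (M v g + ∑ j ∈ T, (1 + p j) * M v j = 0 ∧ (v ∈ T → 1 + p v = 0))) := by
  have hug := split_zero hsp
  obtain ⟨c₁, h1, c₂, h2, hs, hg1, hg2, hd⟩ := hsp
  have hgT : g ∉ T := by
    intro hh
    have := hT g
    rw [hug, l_zero, if_pos hh] at this
    exact absurd this (by decide)
  have hsum : ∀ v, u v = c₁ v + c₂ v := fun v => by rw [← hs, Pi.add_apply]
  have ha := half h hue hT hgT h1 hg1 (by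
    intro w hw
    rcases hd w hw with h3 | h3
    · exact Or.inl h3
    · right; rw [hsum w, h3, add_zero])
  have hb := half h hue hT hgT h2 hg2 (by
    intro w hw
    rcases hd w hw with h3 | h3
    · right; rw [hsum w, h3, zero_add]
    · exact Or.inl h3)
  have hk2 : ∀ j ∈ T, kf (c₂ j) (om j) = 1 + kf (c₁ j) (om j) := by
    intro j hj
    have h3 := hT j
    rw [hsum j, l_add, if_pos hj] at h3
    generalize kf (c₂ j) (om j) = x at h3 ⊢
    generalize kf (c₁ j) (om j) = y at h3 ⊢
    revert x y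
    decide
  refine ⟨fun j => kf (c₁ j) (om j), ha.1, ?_⟩
  have hb2 : ∀ v, (c₂ v).1 = M v g + ∑ j ∈ T, (1 + kf (c₁ j) (om j)) * M v j := by
    intro v
    rw [hb.2 v]
    congr 1
    exact Finset.sum_congr rfl fun j hj => by rw [hk2 j hj]
  intro v
  by_cases hvg : v = g
  · left
    refine ⟨?_, fun hv => absurd (hvg ▸ hv) hgT⟩
    rw [← ha.2 v, hvg, hg1]
    rfl
  · rcases hd v hvg with h3 | h3
    · left
      refine ⟨?_, fun _ => ?_⟩
      · rw [← ha.2 v, h3]; rfl
      · show kf (c₁ v) (om v) = 0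
        rw [h3]; exact l_zero _
    · right
      refine ⟨?_, fun hv => ?_⟩
      · rw [← hb2 v, h3]; rfl
      · show 1 + kf (c₁ v) (om v) = 0
        rw [← hk2 v hv, h3]; exact l_zero _

/-- the part of a word with third letter exactly at one own vertex -/
theorem fpart (h : St B e om M) (hS : RS B e S) {u : X → K} {Y : Finset X} (hu : S u Y)
    {T : Finset X} (hT : ∀ v, kf (u v) (om v) = if v ∈ T then 1 else 0)
    {q : X → K} (hq : q ∈ B) (hle : ∀ v, u v ≠ 0 → q v = 0 ∨ q v = u v) {y : X} (hy : y ∈ Y)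
    (hqy : ∀ v ∈ Y, kf (q v) (om v) = if v = y then 1 else 0) :
    ∃ p : X → ZMod 2, (∑ j ∈ T, p j = 1) ∧ (∀ j ∈ T, M j y + ∑ i ∈ T, p i * M j i = p j) ∧
      (∀ v, u v = 0 → v ∉ Y → M v y + ∑ i ∈ T, p i * M v i = 0) := by
  obtain ⟨q', hq', hqe, hqY, hq0, hqs, -, -⟩ := hS.part u Y hu q hq hle
  obtain ⟨-, huz, hue, heY, huY⟩ := hS.mem u Y hu
  have hyT : y ∉ T := by
    intro hh
    have := hT y
    rw [huY y hy, l_zero, if_pos hh] at this
    exact absurd this (by decide)
  have hout : ∀ w, w ∉ insert y T → kf (q' w) (om w) = 0 := by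
    intro w hw
    rw [Finset.mem_insert, not_or] at hw
    by_cases huw : u w = 0
    · by_cases hwY : w ∈ Y
      · rw [hqY w hwY, hqy w hwY, if_neg hw.1]
      · rw [hq0 w huw hwY]; exact l_zero _
    · rcases hqs w huw with h1 | h1
      · rw [h1]; exact l_zero _
      · rw [h1, hT, if_neg hw.2]
  have hyk : kf (q' y) (om y) = 1 := by rw [hqY y hy, hqy y hy, if_pos rfl]
  have hval : ∀ v, (q' v).1 = M v y + ∑ i ∈ T, kf (q' i) (om i) * M v i := by
    intro v
    rw [h.val q' hq' (by rw [hqe]; rfl) v,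
      ← Finset.sum_subset (Finset.subset_univ (insert y T))
      (fun w _ hw => by rw [hout w hw, mul_zero]), Finset.sum_insert hyT, hyk, mul_one]
    congr 1
    exact Finset.sum_congr rfl fun j _ => mul_comm _ _
  refine ⟨fun j => kf (q' j) (om j), ?_, ?_, ?_⟩
  · have h1 := h.iso q' hq' om h.omB
    unfold form at h1
    rw [← Finset.sum_subset (Finset.subset_univ (insert y T)) (fun w _ hw => hout w hw),
      Finset.sum_insert hyT, hyk] at h1
    show (∑ j ∈ T, kf (q' j) (om j)) = 1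
    generalize (∑ j ∈ T, kf (q' j) (om j)) = a at h1 ⊢
    revert a
    decide
  · intro j hj
    show M j y + ∑ i ∈ T, kf (q' i) (om i) * M j i = kf (q' j) (om j)
    rw [← hval j]
    have huj : kf (u j) (om j) = 1 := by rw [hT, if_pos hj]
    have hne : u j ≠ 0 := by
      intro h0
      rw [h0, l_zero] at huj
      exact absurd huj (by decide)
    rcases hqs j hne with h1 | h1
    · rw [h1, l_zero]; rfl
    · rw [h1, huj]; exact l_third _ _ (h.om1 j) (huz j) huj
  · intro v hv hvY
    show M v y + ∑ i ∈ T, kf (q' i) (om i) * M v i = 0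
    rw [← hval v, hq0 v hv hvY]
    rfl

theorem kf_sum {ι : Type} (s : Finset ι) (f : ι → K) (o : K) :
    kf (∑ i ∈ s, f i) o = ∑ i ∈ s, kf (f i) o := by
  classical
  induction s using Finset.induction_on with
  | empty => simp [l_zero]
  | insert a s ha ih => rw [Finset.sum_insert ha, Finset.sum_insert ha, l_add, ih]

/-- the word of an even set -/
theorem setW (h : St B e om M) (T : Finset X) (heT : e ∉ T) (hev : ((T.card : ℕ) : ZMod 2) = 0) :
    ∃ u ∈ B, (∀ v, (u v).1 = ∑ j ∈ T, M v j) ∧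
      (∀ v, kf (u v) (om v) = if v ∈ T then 1 else 0) ∧ u e = 0 := by
  have hr : ∀ j : X, ∃ r : X → K, r ∈ B ∧ (j ≠ e → (∀ v, (r v).1 = M j v) ∧
      ∀ v, kf (r v) (om v) = if v = j ∨ v = e then 1 else 0) := by
    intro j
    by_cases hj : j = e
    · exact ⟨0, B.zero_mem, fun h0 => absurd hj h0⟩
    · obtain ⟨r, h1, h2⟩ := h.row j hj
      exact ⟨r, h1, fun _ => h2⟩
  choose r hrB hr using hr
  have hne : ∀ j ∈ T, j ≠ e := fun j hj h0 => heT (h0 ▸ hj)
  have e1 : ∀ v, ((∑ j ∈ T, r j) v).1 = ∑ j ∈ T, M v j := by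
    intro v
    rw [Finset.sum_apply, Prod.fst_sum]
    exact Finset.sum_congr rfl fun j hj => by rw [(hr j (hne j hj)).1 v, h.sym]
  have e2 : ∀ v, kf ((∑ j ∈ T, r j) v) (om v) = if v ∈ T then 1 else 0 := by
    intro v
    rw [Finset.sum_apply, kf_sum, Finset.sum_congr rfl fun j hj => (hr j (hne j hj)).2 v]
    by_cases hve : v = e
    · rw [hve, if_neg heT]
      simp [hev]
    · simp only [hve, or_false]
      rw [Finset.sum_ite_eq]
  refine ⟨∑ j ∈ T, r j, B.sum_mem fun j _ => hrB j, e1, e2, ?_⟩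
  refine l_eq_zero _ _ (h.om1 e) ?_ ?_
  · rw [e1]
    exact Finset.sum_eq_zero fun j _ => h.me j
  · rw [e2, if_neg heT]

/-- `k` lives inside the side -/
def Below (u : X → K) (Y : Finset X) (k : X → K) : Prop :=
  (∀ v, u v = 0 → v ∉ Y → k v = 0) ∧ ∀ v, u v ≠ 0 → k v = 0 ∨ k v = u v

/-- the word is minimal -/
def Irr (B : Submodule (ZMod 2) (X → K)) (u : X → K) : Prop :=
  ∀ k ∈ B, (∀ v, k v = 0 ∨ k v = u v) → k = 0 ∨ k = u

theorem inner (hS : RS B e S) {u k : X → K} {Y : Finset X} (hu : S u Y) (hirr : Irr B u)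
    (hk : k ∈ B) (hb : Below u Y k) (hz : ZFree k) : ∃ Y' ⊆ Y, S k Y' := by
  obtain ⟨k', hk', hke, hkY, hk0, hks, hS1, hS2⟩ := hS.part u Y hu k hk hb.2
  have h1 : ∀ v, (k' + k) v = 0 ∨ (k' + k) v = u v := by
    intro v
    rw [Pi.add_apply]
    by_cases huv : u v = 0
    · left
      by_cases hvY : v ∈ Y
      · rw [hkY v hvY]; exact l_addself _
      · rw [hk0 v huv hvY, hb.1 v huv hvY, add_zero]
    · rcases hks v huv with h1 | h1 <;> rcases hb.2 v huv with h2 | h2
      · left; rw [h1, h2, add_zero]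
      · right; rw [h1, h2, zero_add]
      · right; rw [h1, h2, add_zero]
      · left; rw [h1, h2]; exact l_addself _
  rcases hirr _ (B.add_mem hk' hk) h1 with h2 | h2
  · have h3 : k = k' := by
      funext v
      have := congrFun h2 v
      rw [Pi.add_apply, Pi.zero_apply] at this
      exact l_add0 _ _ this
    rw [← h3] at hS1
    exact hS1 hz
  · have h3 : k = k' + u := by
      funext v
      have := congrFun h2 v
      rw [Pi.add_apply] at this ⊢
      rw [← this, l_cancel]
    rw [← h3] at hS2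
    exact hS2 hz

theorem kpart (hS : RS B e S) {u c : X → K} {Y : Finset X} (hu : S u Y) {g : X}
    (hc : c ∈ B) (hg : c g = z) (hgu : u g = 0) (hgY : g ∉ Y)
    (h1 : ∀ v, u v ≠ 0 → c v = 0 ∨ c v = u v)
    (h2 : ∀ v, u v = 0 → v ∉ Y → v ≠ g → c v = 0) : Splits B u g := by
  obtain ⟨c', hc', -, hcY, hc0, hcs, -, -⟩ := hS.part u Y hu c hc h1
  obtain ⟨huB, -, -, -, -⟩ := hS.mem u Y hu
  refine ⟨c + c', B.add_mem hc hc', c + c' + u, B.add_mem (B.add_mem hc hc') huB, ?_, ?_, ?_, ?_⟩
  · funext v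
    simp only [Pi.add_apply]
    exact l_cancel _ _
  · rw [Pi.add_apply, hg, hc0 g hgu hgY, add_zero]
  · rw [Pi.add_apply, Pi.add_apply, hg, hc0 g hgu hgY, hgu, add_zero, add_zero]
  · intro v hv
    rw [Pi.add_apply, Pi.add_apply, Pi.add_apply]
    by_cases huv : u v = 0
    · left
      by_cases hvY : v ∈ Y
      · rw [hcY v hvY]; exact l_addself _
      · rw [hc0 v huv hvY, h2 v huv hvY hv, add_zero]
    · rcases h1 v huv with h3 | h3 <;> rcases hcs v huv with h4 | h4
      · left; rw [h3, h4, add_zero]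
      · right; rw [h3, h4, zero_add]; exact l_addself _
      · right; rw [h3, h4, add_zero]; exact l_addself _
      · left; rw [h3, h4]; exact l_addself _

theorem gY (iso : ∀ u ∈ B, ∀ v ∈ B, form u v = 0) (hS : RS B e S) {u k : X → K} {Y : Finset X}
    (hu : S u Y) (hns : ∀ g, ¬ Splits B u g) (hb : Below u Y k) {g : X} (hs : Splits B k g) :
    g ∈ Y := by
  by_contra hgY
  have hkg := split_zero hs
  obtain ⟨c₁, h1, c₂, h2, hsum, hg1, hg2, hd⟩ := hs
  obtain ⟨huB, huz, -, -, -⟩ := hS.mem u Y hu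
  have hv1 : ∀ v, v ≠ g → c₁ v = 0 ∨ c₁ v = k v := by
    intro v hv
    rcases hd v hv with h3 | h3
    · exact Or.inl h3
    · right; rw [← hsum, Pi.add_apply, h3, add_zero]
  have hgu : u g = 0 := by
    by_contra hne
    have h3 := iso c₁ h1 u huB
    unfold form at h3
    rw [Finset.sum_eq_single g] at h3
    · rw [hg1] at h3
      have h4 := huz g
      revert h3 hne h4
      generalize u g = a
      revert a
      decide
    · intro v _ hv
      by_cases huv : u v = 0
      · rw [huv]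
        generalize c₁ v = a
        revert a
        decide
      · rcases hv1 v hv with h4 | h4
        · rw [h4]; exact l_zero _
        · rcases hb.2 v huv with h5 | h5
          · rw [h4, h5]; exact l_zero _
          · rw [h4, h5]; exact l_self _
    · intro h4
      exact absurd (Finset.mem_univ g) h4
  apply hns g
  refine kpart hS hu h1 hg1 hgu hgY ?_ ?_
  · intro v huv
    have hv : v ≠ g := fun h0 => huv (h0 ▸ hgu)
    rcases hv1 v hv with h4 | h4
    · exact Or.inl h4
    · rw [h4]; exact hb.2 v huv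
  · intro v huv hvY hv
    rcases hv1 v hv with h4 | h4
    · exact h4
    · rw [h4]; exact hb.1 v huv hvY

end Pool.Agent.H23.Q
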